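import Pool.Agent.TH526.ZT.L

/-!
# MP_eeb1a4_ag: Zilber-Pink for Kummer variations and almost all translates by units

On a subvariety `W` of the torus `(ℂ^×)^n` the coordinate functions define a variation of mixed Hodge
structures, the sum of `n` Kummer extensions of `ℤ(0)` by `ℤ(1)`. Its period map is the inclusion of
`W` in the mixed Shimura variety `(ℂ^×)^n` (if `W` is not contained in a smaller torsion coset), the
special subvarieties are the components of the intersections of `W` with the torsion cosets, and the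
atypical ones are those whose dimension is larger than expected.

Let `V` be an arbitrary irreducible subvariety of the torus. We prove that there is a number `K`,
depending only on `V`, such that for the translates `g V` by the points `g` of a finitely generated
group the following holds.

1. Let `F ⊂ ℂ` be a number field with more than `K t` archimedean places (for example a totally real
field of degree larger than `K t`), and `u_1, …, u_q` fundamental units of `F`, `q = r_1 + r_2 - 1`. Of
the `(2 R + 1) ^ (n q)` translates of `V` by the points `g_j = ∏_k u_k ^ e_kj`, `|e_kj| ≤ R`, at most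
`c (2 R + 1) ^ (n q + n - 1 - t)` have any atypical subvariety. So this is true for 100 % of the
translates by units if `F` has more than `K n` archimedean places.

2. Let `F ⊂ ℂ` be a countable field, `u_1, …, u_q` in `F^×`, and let `v_1, …, v_N`, `K t < N`, be
absolute values of `F`, archimedean or not, such that any `t` of the `N` vectors
`(log v_i(u_1), …, log v_i(u_q))` are linearly independent. Then the same is true for the translates
by the points with coordinates `g_j = ∏_k u_k ^ e_kj`, `|e_kj| ≤ R`.

3. More generally the `v_i` can be arbitrary absolute values of the field `ℂ`, and the torsion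
cosets can be replaced by all cosets `η H` with all `|log v_i(η_j)|` bounded.

For `u_k` the first prime numbers and non-archimedean absolute values this is in our file
`MP_b7926e_nt.AlmostAllSUnitTranslates`. The new cases are the archimedean places (units; the
tropical varieties of the proof are replaced by amoebas) and number fields.
-/

set_option autoImplicit false

namespace Pool.Agent.Results.MP_eeb1a4_ag.FinitelyGeneratedTranslates

open MvPolynomial NumberField NumberField.Units
open Pool.Agent.Results.MP_b7926e_nt.NoAtypical (coset idealOf dim mem_idealOf NoAtypicalSubvariety)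

/-- The translate of `V` by the vector `g`. -/
def translate {n : ℕ} (g : Fin n → ℂ) (V : Set (Fin n → ℂ)) : Set (Fin n → ℂ) :=
  {y | ∃ x ∈ V, ∀ i, y i = g i * x i}

/-- Every irreducible subset `A` of the intersection of `W` with a coset `η H`, such that all the
numbers `log v_i(η_j)` are bounded by `B`, satisfies `dim A ≤ dim W + dim H - n`, where
`dim H = n - rank M`. The torsion cosets are such cosets for every `B ≥ 0`. -/
def NoAtypicalWithin {n N : ℕ} (v : Fin N → AbsoluteValue ℂ ℝ) (B : ℝ)
    (W : Set (Fin n → ℂ)) : Prop :=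
  ∀ (M : Submodule ℤ (Fin n → ℤ)) (η : Fin n → ℂ), (∀ j, η j ≠ 0) →
    (∀ i j, |Real.log (v i (η j))| ≤ B) →
      ∀ A : Set (Fin n → ℂ), A ⊆ W → A ⊆ coset M η → (idealOf A).IsPrime →
        dim A + (Module.finrank ℤ M : Cardinal) ≤ dim W

/-- A non-archimedean absolute value or the absolute value given by an embedding into `ℂ`. -/
def IsPlace {F : Type} [Field F] (w : AbsoluteValue F ℝ) : Prop :=
  IsNonarchimedean w ∨ ∃ σ : F →+* ℂ, ∀ x, w x = ‖σ x‖

/-- Any `t` of the `N` vectors `(log v_i(u_1), …, log v_i(u_q))` are linearly independent. -/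
def InGeneralPosition {F : Type} [Field F] {N q : ℕ} (t : ℕ) (v : Fin N → AbsoluteValue F ℝ)
    (u : Fin q → F) : Prop :=
  ∀ T : Finset (Fin N), T.card = t →
    LinearIndependent ℝ fun (i : T) (k : Fin q) => Real.log (v i (u k))

/-- The number of integral matrices `e` with `|e_kj| ≤ R` such that the translate of `V` by the point
with the coordinates `∏_k u_k ^ e_kj` does not have the property `P`. -/
noncomputable def exceptions {n q : ℕ} (V : Set (Fin n → ℂ)) (u : Fin q → ℂ)
    (P : Set (Fin n → ℂ) → Prop) (R : ℕ) : ℕ :=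
  Nat.card {e : Fin q → Fin n → ℤ // (∀ k j, |e k j| ≤ R) ∧
    ¬ P (translate (fun j => ∏ k, u k ^ e k j) V)}

/-- Arbitrary absolute values of `ℂ`. -/
theorem general (n : ℕ) (V : Set (Fin n → ℂ)) (hV : (idealOf V).IsPrime) :
    ∃ K : ℕ, ∀ N t : ℕ, K * t < N → ∀ (v : Fin N → AbsoluteValue ℂ ℝ) (q : ℕ) (u : Fin q → ℂ),
      (∀ k, u k ≠ 0) → InGeneralPosition t v u → ∀ B : ℝ, ∃ c : ℕ, ∀ R : ℕ, 1 ≤ R →
        exceptions V u (NoAtypicalWithin v B) R * (2 * R + 1) ^ t ≤
          c * (2 * R + 1) ^ (n * q + n - 1) := by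
  obtain ⟨K, h⟩ := TH526.ZT.criterion n V hV
  refine ⟨K, fun N t hN v q u hu hgen B => ?_⟩
  obtain ⟨B', hB', hmain⟩ := h N t hN v B
  obtain ⟨c, hc⟩ := TH526.ZT.count_real n q N t (fun i k => Real.log (v i (u k))) hgen B'
  refine ⟨c, fun R hR => ?_⟩
  obtain ⟨E, hE, hE'⟩ := hc R hR
  refine le_trans (Nat.mul_le_mul_right _ ?_) hE
  have hEc : Nat.card E = E.card := by rw [Nat.card_eq_fintype_card, Fintype.card_coe]
  rw [← hEc, exceptions]
  refine Nat.card_le_card_of_injective (fun e => ⟨e.1, ?_⟩) ?_
  · obtain ⟨e, he, hbad⟩ := e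
    have hg : ∀ j, ∏ k, u k ^ e k j ≠ 0 := fun j =>
      Finset.prod_ne_zero_iff.2 fun k _ => zpow_ne_zero _ (hu k)
    rw [NoAtypicalWithin] at hbad
    push Not at hbad
    obtain ⟨M, η, hη, hηB, A, hAW, hAT, hA, hdim⟩ := hbad
    have hdim' : dim V < dim A + (Module.finrank ℤ M : Cardinal) :=
      (TH526.ZT.dim_le_dim_tl (fun j => ∏ k, u k ^ e k j) hg V).trans_lt hdim
    obtain ⟨T, hT, φ, hφ, hφB⟩ := hmain (fun j => ∏ k, u k ^ e k j) hg M η hη hηB A hAW hAT hA hdim'
    refine hE' e he ⟨T, hT, φ, hφ, fun i hi => ?_⟩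
    have h1 : ∀ j, Real.log (v i (∏ k, u k ^ e k j)) =
        ∑ k, (e k j : ℝ) * Real.log (v i (u k)) := by
      intro j
      rw [map_prod, Real.log_prod]
      · refine Finset.sum_congr rfl fun k _ => ?_
        rw [map_zpow₀, Real.log_zpow]
      · intro k _
        rw [map_zpow₀]
        exact zpow_ne_zero _ ((v i).ne_zero (hu k))
    have h2 := hφB i hi
    simp only [h1] at h2
    exact h2
  · intro e e' hee
    exact Subtype.ext (congrArg (fun z : E => (z : Fin q → Fin n → ℤ)) hee)

theorem torsion_of_within {n N : ℕ} (v : Fin N → AbsoluteValue ℂ ℝ) (W : Set (Fin n → ℂ))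
    (h : NoAtypicalWithin v 0 W) : NoAtypicalSubvariety W := by
  rintro M η ⟨k, hk, hηk⟩ A hA hAT hAp
  refine h M η (fun j h0 => ?_) (fun i j => ?_) A hA hAT hAp
  · have := hηk j
    rw [h0, zero_pow hk.ne'] at this
    exact zero_ne_one this
  · have h1 := congrArg (v i) (hηk j)
    rw [map_pow, map_one] at h1
    have h2 := (pow_eq_one_iff_of_nonneg (AbsoluteValue.nonneg _ _) hk.ne').1 h1
    rw [h2, Real.log_one, abs_zero]

theorem exceptions_mono {n q : ℕ} (V : Set (Fin n → ℂ)) (u : Fin q → ℂ)
    (P Q : Set (Fin n → ℂ) → Prop) (h : ∀ W, P W → Q W) (R : ℕ) :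
    exceptions V u Q R ≤ exceptions V u P R := by
  rw [exceptions, exceptions]
  have hfin : Finite {e : Fin q → Fin n → ℤ // (∀ k j, |e k j| ≤ R) ∧
      ¬ P (translate (fun j => ∏ k, u k ^ e k j) V)} := by
    have h1 : {e : Fin q → Fin n → ℤ | (∀ k j, |e k j| ≤ (R : ℤ)) ∧
        ¬ P (translate (fun j => ∏ k, u k ^ e k j) V)}.Finite := by
      refine ((TH526.ZT.boxX (Fin n) q R).finite_toSet).subset fun e he => ?_
      exact TH526.ZT.mem_boxX.2 he.1
    exact h1.to_subtype
  refine Nat.card_le_card_of_injective (fun e => ⟨e.1, e.2.1, fun hP => e.2.2 (h _ hP)⟩) ?_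
  intro e e' hee
  have h2 := congrArg Subtype.val hee
  exact Subtype.ext h2

/-- Let `V` be an irreducible subvariety of the torus `(ℂ^×)^n`. There is a number `K` such that:

(1) Let `F` be a number field in `ℂ` with more than `K t` archimedean places, and `u_1, …, u_q` its
fundamental units. There is a constant `c` such that for all `R ≥ 1` at most
`c (2 R + 1) ^ (n q + n - 1 - t)` of the translates of `V` by the points with the coordinates
`∏_k u_k ^ e_kj`, `|e_kj| ≤ R`, have an atypical subvariety.

(2) The same for nonzero elements `u_1, …, u_q` of a countable field `F` in `ℂ` such that for `N > K t`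
absolute values of `F`, archimedean or not, any `t` of the vectors `(log v_i(u_k))_k` are linearly
independent.

(3) The same for arbitrary absolute values of `ℂ` and bounded cosets. -/
theorem result (n : ℕ) (V : Set (Fin n → ℂ)) (hV : (idealOf V).IsPrime) :
    ∃ K : ℕ,
      (∀ (F : Type) [Field F] [NumberField F] [Algebra F ℂ] (t : ℕ),
        K * t < Fintype.card (InfinitePlace F) → ∃ c : ℕ, ∀ R : ℕ, 1 ≤ R →
          exceptions V (fun k => algebraMap F ℂ (fundSystem F k)) NoAtypicalSubvariety R *
            (2 * R + 1) ^ t ≤ c * (2 * R + 1) ^ (n * rank F + n - 1)) ∧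
      (∀ N t : ℕ, K * t < N → ∀ (F : Type) [Field F] [Countable F] [Algebra F ℂ]
        (v : Fin N → AbsoluteValue F ℝ), (∀ i, IsPlace (v i)) → ∀ (q : ℕ) (u : Fin q → F),
          (∀ k, u k ≠ 0) → InGeneralPosition t v u → ∃ c : ℕ, ∀ R : ℕ, 1 ≤ R →
            exceptions V (fun k => algebraMap F ℂ (u k)) NoAtypicalSubvariety R *
              (2 * R + 1) ^ t ≤ c * (2 * R + 1) ^ (n * q + n - 1)) ∧
      (∀ N t : ℕ, K * t < N → ∀ (v : Fin N → AbsoluteValue ℂ ℝ) (q : ℕ) (u : Fin q → ℂ),
        (∀ k, u k ≠ 0) → InGeneralPosition t v u → ∀ B : ℝ, ∃ c : ℕ, ∀ R : ℕ, 1 ≤ R →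
          exceptions V u (NoAtypicalWithin v B) R * (2 * R + 1) ^ t ≤
            c * (2 * R + 1) ^ (n * q + n - 1)) := by
  classical
  obtain ⟨K, h⟩ := general n V hV
  have h' : ∀ N t : ℕ, (K + 1) * t < N → ∀ (v : Fin N → AbsoluteValue ℂ ℝ) (q : ℕ)
      (u : Fin q → ℂ), (∀ k, u k ≠ 0) → InGeneralPosition t v u → ∀ B : ℝ, ∃ c : ℕ,
        ∀ R : ℕ, 1 ≤ R → exceptions V u (NoAtypicalWithin v B) R * (2 * R + 1) ^ t ≤
          c * (2 * R + 1) ^ (n * q + n - 1) := fun N t hN =>
    h N t (lt_of_le_of_lt (Nat.mul_le_mul_right _ (Nat.le_succ K)) hN)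
  have h2 : ∀ N t : ℕ, (K + 1) * t < N → ∀ (F : Type) [Field F] [Countable F] [Algebra F ℂ]
        (v : Fin N → AbsoluteValue F ℝ), (∀ i, IsPlace (v i)) → ∀ (q : ℕ) (u : Fin q → F),
          (∀ k, u k ≠ 0) → InGeneralPosition t v u → ∃ c : ℕ, ∀ R : ℕ, 1 ≤ R →
            exceptions V (fun k => algebraMap F ℂ (u k)) NoAtypicalSubvariety R *
              (2 * R + 1) ^ t ≤ c * (2 * R + 1) ^ (n * q + n - 1) := by
    intro N t hN F _ _ _ v hv q u hu hgen
    choose v' hv' using fun i => TH526.ZT.exists_abs_extend F (v i) (hv i)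
    obtain ⟨c, hc⟩ := h' N t hN v' q (fun k => algebraMap F ℂ (u k))
      (fun k => (map_ne_zero _).2 (hu k)) (fun T hT => by
        simp only [hv']
        exact hgen T hT) 0
    exact ⟨c, fun R hR => (Nat.mul_le_mul_right _ (exceptions_mono V _ _ _
      (fun W => torsion_of_within v' W) R)).trans (hc R hR)⟩
  refine ⟨K + 1, ?_, h2, h'⟩
  intro F _ _ _ t ht
  have _ : Countable F := by
    have h1 : Cardinal.mk F ≤ Cardinal.aleph0 :=
      (Algebra.IsAlgebraic.cardinalMk_le_max ℚ F).trans (by simp)
    exact Cardinal.mk_le_aleph0_iff.1 h1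
  let eP : Fin (Fintype.card (InfinitePlace F)) ≃ InfinitePlace F :=
    (Fintype.equivFin (InfinitePlace F)).symm
  have htN : t < Fintype.card (InfinitePlace F) :=
    lt_of_le_of_lt (Nat.le_mul_of_pos_left t (Nat.succ_pos K)) ht
  refine h2 _ t ht F (fun i => (eP i).1) (fun i => Or.inr ?_) (rank F)
    (fun k => (fundSystem F k : F)) (fun k => ?_) ?_
  · refine ⟨(eP i).embedding, fun x => ?_⟩
    exact (InfinitePlace.norm_embedding_eq (eP i) x).symm
  · exact NumberField.Units.coe_ne_zero _
  · intro T hT
    have h3 := TH526.ZT.units_independent F (T.map eP.toEmbedding)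
      (by rw [Finset.card_map, hT]; exact htN)
    have h4 := h3.comp (fun i : T => (⟨eP i, Finset.mem_map_of_mem eP.toEmbedding i.2⟩ :
      T.map eP.toEmbedding)) (fun a b hab => by
        have := congrArg Subtype.val hab
        exact Subtype.ext (eP.injective this))
    exact h4

end Pool.Agent.Results.MP_eeb1a4_ag.FinitelyGeneratedTranslates
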